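import Pool.Agent.Helper835.KS.FamilyEq
import Pool.Agent.Helper292.ForceCH

/-!
# Under the continuum hypothesis every family of continuum many sets is countably coded
-/

set_option autoImplicit false

open Set Cardinal
open Pool.Agent.Results.MP_17aaef_lc.FamilyEquivalence

namespace Pool.Agent.Helper835.KS

universe u

/-- the countable ordinals -/
abbrev Om : Type := (ℵ₁ : Cardinal.{0}).ord.ToType

theorem countable_Iic (a : Om) : Countable {b : Om // b ≤ a} := by
  have h1 : Countable {b : Om // b < a} := Pool.Agent.Helper292.ForceCH.countable_Iio a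
  have h2 : {b : Om | b ≤ a} = insert a {b : Om | b < a} := by
    ext b
    simp only [mem_ofPred_eq, mem_insert_iff]
    exact le_iff_eq_or_lt
  have h3 : {b : Om | b ≤ a}.Countable := by
    rw [h2]
    exact Set.Countable.insert a (Set.countable_coe_iff.1 h1)
  exact h3.to_subtype

theorem coded_of_CH (hCH : (𝔠 : Cardinal.{0}) = ℵ₁) (E : Type u) (hE : #E = 𝔠) :
    CountablyCoded E := by
  classical
  intro F hF
  rcases F.eq_empty_or_nonempty with hFe | hFne
  · exact ⟨fun _ => ∅, fun Z hZ => by rw [hFe] at hZ; exact absurd hZ (notMem_empty _)⟩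
  have hOm : #Om = 𝔠 := by rw [hCH]; exact Cardinal.mk_ord_toType _
  obtain ⟨φ⟩ : Nonempty (E ≃ Om) := by
    rw [← Cardinal.lift_mk_eq', hE, hOm]
    simp
  obtain ⟨j⟩ : Nonempty (Om ≃ (ℕ → Bool)) := by
    rw [← Cardinal.lift_mk_eq', hOm]
    simp
  obtain ⟨S, hS⟩ : ∃ S : Om → Set E, ∀ Z ∈ F, ∃ ξ, S ξ = Z := by
    have h1 : Cardinal.lift.{0} #F ≤ Cardinal.lift.{u} #Om := by
      rw [hOm]; simpa using hF
    obtain ⟨ψ⟩ := Cardinal.lift_mk_le'.mp h1
    have : Nonempty F := hFne.to_subtype
    refine ⟨fun s => (Function.invFun ψ s : F), fun Z hZ => ⟨ψ ⟨Z, hZ⟩, ?_⟩⟩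
    simp only
    rw [Function.leftInverse_invFun ψ.injective]
  have he : ∀ a : Om, ∃ f : {b : Om // b ≤ a} → ℕ, Function.Injective f := fun a => by
    have := countable_Iic a
    exact exists_injective_nat _
  choose e he using he
  let B' : ℕ ⊕ ℕ ⊕ (ℕ × ℕ) → Set E := fun i => match i with
    | Sum.inl k => {x | j (φ x) k = true}
    | Sum.inr (Sum.inl n) => {x | ∃ ξ : {b : Om // b ≤ φ x}, e (φ x) ξ = n ∧ x ∈ S ξ}
    | Sum.inr (Sum.inr (n, k)) =>
        {x | ∃ ξ : {b : Om // b ≤ φ x}, e (φ x) ξ = n ∧ x ∈ S ξ ∧ j ξ k = true}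
  obtain ⟨g, hg⟩ := exists_surjective_nat (ℕ ⊕ ℕ ⊕ (ℕ × ℕ))
  refine ⟨fun n => B' (g n), ?_⟩
  let M : MeasurableSpace E := MeasurableSpace.generateFrom (Set.range fun n => B' (g n))
  have hB' : ∀ i, @MeasurableSet E M (B' i) := by
    intro i
    obtain ⟨n, rfl⟩ := hg i
    exact MeasurableSpace.measurableSet_generateFrom ⟨n, rfl⟩
  have hsing : ∀ x : E, @MeasurableSet E M {x} := by
    intro x
    have h1 : ({x} : Set E) = ⋂ k, if j (φ x) k = true then B' (Sum.inl k) else (B' (Sum.inl k))ᶜ := by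
      ext y
      simp only [mem_singleton_iff, mem_iInter]
      constructor
      · rintro rfl k
        split_ifs with h
        · exact h
        · exact h
      · intro h
        apply φ.injective
        apply j.injective
        funext k
        have h2 := h k
        split_ifs at h2 with h3
        · rw [h3]; exact h2
        · have h4 : ¬ j (φ y) k = true := h2
          rw [Bool.eq_false_iff.2 h3, Bool.eq_false_iff.2 h4]
    rw [h1]
    apply MeasurableSet.iInter
    intro k
    split_ifs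
    · exact hB' (Sum.inl k)
    · exact (hB' (Sum.inl k)).compl
  intro Z hZ
  obtain ⟨ξ, rfl⟩ := hS Z hZ
  have h1 : S ξ = (⋃ n, (B' (Sum.inr (Sum.inl n)) ∩ ⋂ k, if j ξ k = true then
      B' (Sum.inr (Sum.inr (n, k))) else (B' (Sum.inr (Sum.inr (n, k))))ᶜ)) ∪
      (S ξ ∩ {x | φ x < ξ}) := by
    ext x
    constructor
    · intro hx
      rcases lt_or_ge (φ x) ξ with hlt | hle
      · exact Or.inr ⟨hx, hlt⟩
      · left
        refine mem_iUnion.2 ⟨e (φ x) ⟨ξ, hle⟩, ⟨⟨ξ, hle⟩, rfl, hx⟩, mem_iInter.2 fun k => ?_⟩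
        split_ifs with hk
        · exact ⟨⟨ξ, hle⟩, rfl, hx, hk⟩
        · rintro ⟨η, h2, _, h4⟩
          have h5 := he _ h2
          rw [h5] at h4
          exact hk h4
    · rintro (hx | hx)
      · obtain ⟨n, ⟨η, h2, h3⟩, h4⟩ := mem_iUnion.1 hx
        have h5 : (η : Om) = ξ := by
          apply j.injective
          funext k
          have h6 := mem_iInter.1 h4 k
          split_ifs at h6 with hk
          · obtain ⟨η', h7, _, h8⟩ := h6
            have h9 := he _ (h7.trans h2.symm)
            rw [h9] at h8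
            rw [h8, hk]
          · have h7 : ¬ j η k = true := fun h => h6 ⟨η, h2, h3, h⟩
            rw [Bool.eq_false_iff.2 hk, Bool.eq_false_iff.2 h7]
        rw [← h5]; exact h3
      · exact hx.1
  rw [h1]
  apply MeasurableSet.union
  · apply MeasurableSet.iUnion
    intro n
    apply (hB' (Sum.inr (Sum.inl n))).inter
    apply MeasurableSet.iInter
    intro k
    split_ifs
    · exact hB' (Sum.inr (Sum.inr (n, k)))
    · exact (hB' (Sum.inr (Sum.inr (n, k)))).compl
  · have hc : (S ξ ∩ {x | φ x < ξ}).Countable := by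
      have h2 : Countable {b : Om // b < ξ} := Pool.Agent.Helper292.ForceCH.countable_Iio ξ
      have h3 : {b : Om | b < ξ}.Countable := Set.countable_coe_iff.1 h2
      have h4 : {x | φ x < ξ}.Countable := h3.preimage φ.injective
      exact h4.mono inter_subset_right
    have h2 : (S ξ ∩ {x | φ x < ξ}) = ⋃ x ∈ (S ξ ∩ {x | φ x < ξ}), {x} :=
      (Set.biUnion_of_singleton _).symm
    rw [h2]
    exact MeasurableSet.biUnion hc fun x _ => hsing x

end Pool.Agent.Helper835.KS
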