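import Mathlib

/-!
# Two indices with isomorphic countable supports
-/

set_option autoImplicit false

open Set Cardinal

namespace Pool.Agent.Helper835.KS

section

variable {K C : Type}

/-- shape of the nodes -/
abbrev Ar (C : Type) : Option (C × Set ℕ × ℕ) → Type
  | none => Empty
  | some _ => ℕ

theorem card_w (hC : #C ≤ 𝔠) : #(WType (Ar C)) ≤ 𝔠 := by
  apply WType.cardinalMk_le_of_le'
  have h1 : ∀ a : Option (C × Set ℕ × ℕ), (𝔠 : Cardinal.{0}) ^ Cardinal.lift.{0} #(Ar C a) ≤ 𝔠 := by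
    intro a
    cases a with
    | none =>
      simp [Ar]
      exact (Cardinal.one_lt_aleph0.trans Cardinal.aleph0_lt_continuum).le
    | some a =>
      simp [Ar]
  refine (Cardinal.sum_le_sum _ (fun _ => 𝔠) h1).trans ?_
  rw [Cardinal.sum_const']
  have h2 : #(Option (C × Set ℕ × ℕ)) ≤ 𝔠 := by
    rw [Cardinal.mk_option]
    have h3 : #(C × Set ℕ × ℕ) ≤ 𝔠 := by
      rw [Cardinal.mk_prod, Cardinal.mk_prod]
      simp only [Cardinal.lift_id, Cardinal.mk_set, Cardinal.mk_nat, Cardinal.two_power_aleph0,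
        Cardinal.continuum_mul_aleph0]
      exact (mul_le_mul_left hC 𝔠).trans (by simp)
    have h4 : (1 : Cardinal.{0}) ≤ 𝔠 := (Cardinal.one_lt_aleph0.trans Cardinal.aleph0_lt_continuum).le
    exact (add_le_add h3 h4).trans (by simp)
  calc _ ≤ 𝔠 * 𝔠 := mul_le_mul_left h2 𝔠
    _ = 𝔠 := by simp

open Classical in
/-- the index picked for a code and a partial enumeration -/
noncomputable def pick (e : K → ℕ → K) (c : K → C) (k₀ : K) (c₀ : C) (I : Set ℕ) (s : ℕ → K) : K :=
  if h : ∃ a, c a = c₀ ∧ ∀ i ∈ I, e a i = s i then h.choose else k₀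

theorem pick_spec (e : K → ℕ → K) (c : K → C) (k₀ : K) (c₀ : C) (I : Set ℕ) (s : ℕ → K)
    (h : ∃ a, c a = c₀ ∧ ∀ i ∈ I, e a i = s i) :
    c (pick e c k₀ c₀ I s) = c₀ ∧ ∀ i ∈ I, e (pick e c k₀ c₀ I s) i = s i := by
  unfold pick
  rw [dif_pos h]
  exact h.choose_spec

/-- the closure map -/
noncomputable def F (e : K → ℕ → K) (c : K → C) (k₀ : K) : WType (Ar C) → K
  | WType.mk none _ => k₀
  | WType.mk (some a) f => e (pick e c k₀ a.1 a.2.1 fun i => F e c k₀ (f i)) a.2.2

theorem exists_pair (hC : #C ≤ 𝔠) (hK : 𝔠 < #K) (e : K → ℕ → K)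
    (hinj : ∀ a, Function.Injective (e a)) (hself : ∀ a, a ∈ range (e a)) (R : Set K)
    (hR : ∀ a, R ⊆ range (e a)) (c : K → C) :
    ∃ a b, a ≠ b ∧ c a = c b ∧ (∀ i j, e a i = e b j → i = j) ∧
      (∀ i, e a i ∈ R → e a i = e b i) := by
  have hne : Nonempty K := by
    rw [← Cardinal.mk_ne_zero_iff]
    exact (lt_of_le_of_lt bot_le hK).ne'
  obtain ⟨k₀⟩ := hne
  let M : Set K := range (F e c k₀)
  have hM : #M ≤ 𝔠 := Cardinal.mk_range_le.trans (card_w hC)
  obtain ⟨b, hb⟩ : ∃ b, b ∉ M := by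
    by_contra h
    push Not at h
    have : M = Set.univ := Set.eq_univ_of_forall h
    rw [this, Cardinal.mk_univ] at hM
    exact absurd hM (not_le.2 hK)
  classical
  let I : Set ℕ := {i | e b i ∈ M}
  have hf : ∀ i, ∃ w : WType (Ar C), i ∈ I → F e c k₀ w = e b i := by
    intro i
    by_cases hi : i ∈ I
    · obtain ⟨w, hw⟩ := hi
      exact ⟨w, fun _ => hw⟩
    · exact ⟨WType.mk none (fun x => x.elim), fun h => absurd h hi⟩
  choose f hf using hf
  have hs := pick_spec e c k₀ (c b) I (fun i => F e c k₀ (f i)) ⟨b, rfl, fun i hi => (hf i hi).symm⟩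
  set a := pick e c k₀ (c b) I (fun i => F e c k₀ (f i)) with ha
  have haM : ∀ j, e a j ∈ M := by
    intro j
    refine ⟨WType.mk (some (c b, I, j)) f, ?_⟩
    simp only [F]
    rfl
  have hI : ∀ i ∈ I, e a i = e b i := fun i hi => (hs.2 i hi).trans (hf i hi)
  have hab : ∀ i j, e a i = e b j → i = j := by
    intro i j hij
    have hj : j ∈ I := by
      change e b j ∈ M
      rw [← hij]; exact haM i
    exact hinj a (hij.trans (hI j hj).symm)
  refine ⟨a, b, ?_, hs.1, hab, ?_⟩
  · intro h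
    obtain ⟨j, hj⟩ := hself a
    apply hb
    rw [← h, ← hj]
    exact haM j
  · intro i hi
    obtain ⟨j, hj⟩ := hR b hi
    have : i = j := hab i j hj.symm
    rw [this] at hj ⊢
    exact hj.symm

/-- the swap of two enumerations -/
theorem exists_swap (u v : ℕ → K) (hu : Function.Injective u) (hv : Function.Injective v)
    (huv : ∀ i j, u i = v j → i = j) :
    ∃ π : K ≃ K, (∀ i, π (u i) = v i) ∧ (∀ i, π (v i) = u i) ∧
      ∀ x, x ∉ range u → x ∉ range v → π x = x := by
  classical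
  let f : K → K := fun x => if h : ∃ i, u i = x then v h.choose else
    if h : ∃ i, v i = x then u h.choose else x
  have fu : ∀ i, f (u i) = v i := by
    intro i
    have h : ∃ j, u j = u i := ⟨i, rfl⟩
    simp only [f]
    rw [dif_pos h, hu h.choose_spec]
  have fv : ∀ i, f (v i) = u i := by
    intro i
    by_cases h : ∃ j, u j = v i
    · simp only [f]
      rw [dif_pos h]
      have h1 := huv _ _ h.choose_spec
      rw [h1]
      rw [h1] at *
      obtain ⟨j, hj⟩ := h
      have h2 := huv _ _ hj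
      rw [h2] at hj
      exact hj.symm
    · have h' : ∃ j, v j = v i := ⟨i, rfl⟩
      simp only [f]
      rw [dif_neg h, dif_pos h', hv h'.choose_spec]
  have fx : ∀ x, x ∉ range u → x ∉ range v → f x = x := by
    intro x hx hx'
    simp only [f]
    rw [dif_neg (show ¬ ∃ i, u i = x from hx), dif_neg (show ¬ ∃ i, v i = x from hx')]
  have hf : Function.Involutive f := by
    intro x
    by_cases hx : x ∈ range u
    · obtain ⟨i, rfl⟩ := hx
      rw [fu, fv]
    · by_cases hx' : x ∈ range v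
      · obtain ⟨i, rfl⟩ := hx'
        rw [fv, fu]
      · rw [fx x hx hx', fx x hx hx']
  exact ⟨hf.toPerm, fu, fv, fx⟩

end

end Pool.Agent.Helper835.KS
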