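import Pool.Agent.Helper835.KS.Names
import Pool.Agent.Helper835.KS.Pair

/-!
# Cohen conditions
-/

set_option autoImplicit false

open Set Cardinal
open Pool.Agent.Helper292.ForceCH

namespace Pool.Agent.Helper835.KS

section

variable {X : Type}

/-- `p` and `q` disagree at a point. -/
def Clash (p q : Finset (X × Bool)) : Prop := ∃ x b, (x, b) ∈ p ∧ (x, !b) ∈ q

/-- `p` is a partial function. -/
def Cons (p : Finset (X × Bool)) : Prop := ∀ x b, (x, b) ∈ p → (x, !b) ∉ p

theorem finite_antichain (n : ℕ) : ∀ A : Set (Finset (X × Bool)), (∀ p ∈ A, p.card ≤ n) →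
    (∀ p ∈ A, Cons p) → (∀ p ∈ A, ∀ q ∈ A, p ≠ q → Clash p q) → A.Finite := by
  classical
  induction n with
  | zero =>
    intro A h1 _ _
    refine (Set.finite_singleton (∅ : Finset (X × Bool))).subset ?_
    intro p hp
    exact Finset.card_eq_zero.1 (Nat.le_zero.1 (h1 p hp))
  | succ n ih =>
    intro A h1 h2 h3
    rcases A.eq_empty_or_nonempty with hA | ⟨p, hp⟩
    · rw [hA]; exact Set.finite_empty
    let B : X × Bool → Set (Finset (X × Bool)) := fun y => {q | q ∈ A ∧ (y.1, !y.2) ∈ q}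
    have hB : ∀ y, (B y).Finite := by
      intro y
      have hinj : Set.InjOn (fun q : Finset (X × Bool) => q.erase (y.1, !y.2)) (B y) := by
        intro q hq q' hq' h
        simp only at h
        rw [← Finset.insert_erase hq.2, h, Finset.insert_erase hq'.2]
      refine Set.Finite.of_finite_image (ih _ ?_ ?_ ?_) hinj
      · rintro _ ⟨q, hq, rfl⟩
        have := h1 q hq.1
        rw [Finset.card_erase_of_mem hq.2]
        omega
      · rintro _ ⟨q, hq, rfl⟩ x b hx hx'
        exact h2 q hq.1 x b (Finset.mem_of_mem_erase hx) (Finset.mem_of_mem_erase hx')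
      · rintro _ ⟨q, hq, rfl⟩ _ ⟨q', hq', rfl⟩ hne
        have hqq : q ≠ q' := by rintro rfl; exact hne rfl
        obtain ⟨x, b, hx, hx'⟩ := h3 q hq.1 q' hq'.1 hqq
        refine ⟨x, b, Finset.mem_erase.2 ⟨?_, hx⟩, Finset.mem_erase.2 ⟨?_, hx'⟩⟩
        · intro h
          rw [h] at hx
          have h4 : x = y.1 := (Prod.ext_iff.1 h).1
          have h5 : b = !y.2 := (Prod.ext_iff.1 h).2
          have h6 := h2 q' hq'.1 _ _ hq'.2
          rw [h4, h5] at hx'
          exact h6 hx'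
        · intro h
          rw [h] at hx'
          have h4 : x = y.1 := (Prod.ext_iff.1 h).1
          have h5 : (!b) = !y.2 := (Prod.ext_iff.1 h).2
          have h5' : b = y.2 := by simpa using h5
          have h6 := h2 q hq.1 _ _ hq.2
          rw [h4, h5'] at hx
          apply h6
          simpa using hx
    have hsub : A ⊆ {p} ∪ ⋃ y ∈ p, B y := by
      intro q hq
      by_cases h : p = q
      · left; exact h.symm
      · right
        obtain ⟨x, b, hx, hx'⟩ := h3 p hp q hq h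
        exact Set.mem_biUnion hx ⟨hq, hx'⟩
    refine Set.Finite.subset ((Set.finite_singleton p).union ?_) hsub
    exact Set.Finite.biUnion (Finset.finite_toSet p) fun y _ => hB y

end

/-- Cohen conditions for a `K`-sequence of subsets of `ℕ`: finite partial functions from
`K × ℕ` to `Bool`. -/
def Cond (K : Type) : Type := {p : Finset ((K × ℕ) × Bool) // Cons p}

section

variable {K : Type}

instance : Preorder (Cond K) where
  le q p := p.1 ⊆ q.1
  le_refl p := Finset.Subset.refl _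
  le_trans _ _ _ h h' := Finset.Subset.trans h' h

theorem le_def {q p : Cond K} : q ≤ p ↔ p.1 ⊆ q.1 := Iff.rfl

instance : Nonempty (Cond K) := ⟨⟨∅, fun _ _ h => absurd h (Finset.notMem_empty _)⟩⟩

theorem exists_le_of_not_clash {p q : Cond K} (h : ¬ Clash p.1 q.1) : ∃ r, r ≤ p ∧ r ≤ q := by
  classical
  refine ⟨⟨p.1 ∪ q.1, ?_⟩, Finset.subset_union_left, Finset.subset_union_right⟩
  intro x b hx hx'
  rcases Finset.mem_union.1 hx with h1 | h1 <;> rcases Finset.mem_union.1 hx' with h2 | h2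
  · exact p.2 x b h1 h2
  · exact h ⟨x, b, h1, h2⟩
  · exact h ⟨x, !b, h2, by simpa using h1⟩
  · exact q.2 x b h1 h2

/-- antichains are countable -/
theorem countable_antichain (A : Set (Cond K))
    (h : ∀ p ∈ A, ∀ q ∈ A, p ≠ q → ¬ ∃ r, r ≤ p ∧ r ≤ q) : A.Countable := by
  have h1 : A = ⋃ n : ℕ, {p | p ∈ A ∧ p.1.card ≤ n} := by
    ext p
    simp only [mem_iUnion, mem_ofPred_eq]
    exact ⟨fun hp => ⟨_, hp, le_rfl⟩, fun ⟨_, hp, _⟩ => hp⟩
  rw [h1]
  refine Set.countable_iUnion fun n => Set.Finite.countable ?_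
  have hinj : Set.InjOn (fun p : Cond K => p.1) {p | p ∈ A ∧ p.1.card ≤ n} :=
    fun p _ q _ h => Subtype.ext h
  refine Set.Finite.of_finite_image (finite_antichain n _ ?_ ?_ ?_) hinj
  · rintro _ ⟨p, hp, rfl⟩; exact hp.2
  · rintro _ ⟨p, hp, rfl⟩; exact p.2
  · rintro _ ⟨p, hp, rfl⟩ _ ⟨q, hq, rfl⟩ hne
    by_contra hc
    refine h p hp.1 q hq.1 ?_ (exists_le_of_not_clash hc)
    rintro rfl
    exact hne rfl

/-- every set of conditions has the same meaning as a countable one -/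
theorem exists_countable_name (N : Set (Cond K)) :
    ∃ M : Set (Cond K), M.Countable ∧ meets M = meets N := by
  let D : Set (Cond K) := {q | ∃ s ∈ N, q ≤ s}
  let S : Set (Set (Cond K)) := {M | M ⊆ D ∧ ∀ p ∈ M, ∀ q ∈ M, p ≠ q → ¬ ∃ r, r ≤ p ∧ r ≤ q}
  obtain ⟨M, hM⟩ : ∃ M, Maximal (· ∈ S) M := by
    apply zorn_subset
    intro c hc hchain
    refine ⟨⋃₀ c, ⟨?_, ?_⟩, fun s hs => subset_sUnion_of_mem hs⟩
    · exact sUnion_subset fun s hs => (hc hs).1
    · rintro p ⟨s, hs, hps⟩ q ⟨t, ht, hqt⟩ hpq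
      rcases hchain.total hs ht with h | h
      · exact (hc ht).2 p (h hps) q hqt hpq
      · exact (hc hs).2 p hps q (h hqt) hpq
  refine ⟨M, countable_antichain M hM.prop.2, ?_⟩
  ext p
  constructor
  · intro h q hq
    obtain ⟨r, hr, s, hs, hrs⟩ := h q hq
    obtain ⟨s', hs', hss'⟩ := hM.prop.1 hs
    exact ⟨r, hr, s', hs', hrs.trans hss'⟩
  · intro h q hq
    obtain ⟨r, hr, s, hs, hrs⟩ := h q hq
    by_cases hc : ∃ m ∈ M, ∃ r', r' ≤ r ∧ r' ≤ m
    · obtain ⟨m, hm, r', h1, h2⟩ := hc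
      exact ⟨r', h1.trans hr, m, hm, h2⟩
    · exfalso
      have hrM : r ∉ M := fun hrM => hc ⟨r, hrM, r, le_rfl, le_rfl⟩
      have h1 : insert r M ∈ S := by
        refine ⟨Set.insert_subset ⟨s, hs, hrs⟩ hM.prop.1, ?_⟩
        intro a ha b hb hab
        rcases ha with rfl | ha <;> rcases hb with rfl | hb
        · exact absurd rfl hab
        · rintro ⟨r', h2, h3⟩; exact hc ⟨b, hb, r', h2, h3⟩
        · rintro ⟨r', h2, h3⟩; exact hc ⟨a, ha, r', h3, h2⟩
        · exact hM.prop.2 a ha b hb hab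
      exact hrM (hM.le_of_ge h1 (Set.subset_insert r M) (Set.mem_insert r M))

/-- relabelling -/
def mapEmb {K' : Type} (f : K ↪ K') : (K × ℕ) × Bool ↪ (K' × ℕ) × Bool where
  toFun x := ((f x.1.1, x.1.2), x.2)
  inj' := by
    rintro ⟨⟨a, n⟩, b⟩ ⟨⟨a', n'⟩, b'⟩ h
    simp only [Prod.mk.injEq, EmbeddingLike.apply_eq_iff_eq] at h
    obtain ⟨⟨h1, h2⟩, h3⟩ := h
    rw [h1, h2, h3]

theorem mapEmb_eq {K' : Type} {f : K ↪ K'} {k : K} {x : (K' × ℕ) × Bool} (h : f k = x.1.1) :
    mapEmb f ((k, x.1.2), x.2) = x := by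
  change ((f k, x.1.2), x.2) = x
  rw [h]

theorem mem_mapEmb {K' : Type} {f : K ↪ K'} {p : Finset ((K × ℕ) × Bool)} {x : (K' × ℕ) × Bool} :
    x ∈ p.map (mapEmb f) ↔ ∃ k, ((k, x.1.2), x.2) ∈ p ∧ f k = x.1.1 := by
  rw [Finset.mem_map]
  constructor
  · rintro ⟨⟨⟨k, n⟩, b⟩, h, rfl⟩
    exact ⟨k, h, rfl⟩
  · rintro ⟨k, h, h'⟩
    exact ⟨_, h, mapEmb_eq h'⟩

/-- relabelling of conditions -/
def Cond.map {K' : Type} (f : K ↪ K') (p : Cond K) : Cond K' :=
  ⟨p.1.map (mapEmb f), by
    intro x b hx hx'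
    obtain ⟨k, h1, h2⟩ := mem_mapEmb.1 hx
    obtain ⟨k', h3, h4⟩ := mem_mapEmb.1 hx'
    have : k = k' := f.injective (h2.trans h4.symm)
    subst this
    exact p.2 _ _ h1 h3⟩

theorem Cond.map_le {K' : Type} (f : K ↪ K') {p q : Cond K} : p.map f ≤ q.map f ↔ p ≤ q :=
  Finset.map_subset_map

theorem Cond.map_map {K' K'' : Type} (f : K ↪ K') (g : K' ↪ K'') (p : Cond K) :
    (p.map f).map g = p.map (f.trans g) := by
  apply Subtype.ext
  simp only [Cond.map, Finset.map_map]
  rfl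

theorem Cond.map_injective {K' : Type} (f : K ↪ K') :
    Function.Injective (Cond.map f : Cond K → Cond K') := by
  intro p q h
  apply Subtype.ext
  exact Finset.map_injective (mapEmb f) (Subtype.ext_iff.1 h)

theorem Cond.map_of_fix (f : K ↪ K) (p : Cond K) (h : ∀ x ∈ p.1, f x.1.1 = x.1.1) :
    p.map f = p := by
  apply Subtype.ext
  ext x
  simp only [Cond.map]
  rw [mem_mapEmb]
  constructor
  · rintro ⟨k, h1, h2⟩
    have h3 := h _ h1
    simp only at h3
    have h4 : x = ((k, x.1.2), x.2) := by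
      rw [h3] at h2
      rw [h2]
    rw [h4]; exact h1
  · intro hx
    exact ⟨x.1.1, hx, h x hx⟩

/-- the automorphism induced by a permutation -/
def auto (π : K ≃ K) : Cond K ≃o Cond K where
  toFun := Cond.map π.toEmbedding
  invFun := Cond.map π.symm.toEmbedding
  left_inv p := by
    rw [Cond.map_map]
    apply Cond.map_of_fix
    intro x _
    simp
  right_inv p := by
    rw [Cond.map_map]
    apply Cond.map_of_fix
    intro x _
    simp
  map_rel_iff' := Cond.map_le _

/-- a condition whose support lies in the range of `f` is a relabelled one -/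
theorem exists_map_eq {K' : Type} (f : K ↪ K') (p : Cond K') (h : ∀ x ∈ p.1, x.1.1 ∈ range f) :
    ∃ r : Cond K, r.map f = p := by
  refine ⟨⟨p.1.preimage (mapEmb f) (mapEmb f).injective.injOn, ?_⟩, ?_⟩
  · intro x b hx hx'
    rw [Finset.mem_preimage] at hx hx'
    exact p.2 _ _ hx hx'
  · apply Subtype.ext
    ext x
    simp only [Cond.map]
    rw [mem_mapEmb]
    constructor
    · rintro ⟨k, h1, h2⟩
      rw [Finset.mem_preimage, mapEmb_eq h2] at h1
      exact h1
    · intro hx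
      obtain ⟨k, hk⟩ := h x hx
      refine ⟨k, ?_, hk⟩
      rw [Finset.mem_preimage, mapEmb_eq hk]
      exact hx

end

end Pool.Agent.Helper835.KS
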