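import Mathlib

set_option autoImplicit false

open Set Cardinal

universe u

namespace Pool.Agent.Results.MP_17aaef_lc.FamilyEquivalence

/-- The sigma-algebra on `E ^ n` generated by the rectangles with sides in the sequence `A`. -/
@[reducible] def rectSpace {E : Type u} (A : ℕ → Set E) (n : ℕ) : MeasurableSpace (Fin n → E) :=
  MeasurableSpace.generateFrom {S | ∃ m : Fin n → ℕ, S = {x | ∀ i, x i ∈ A (m i)}}

/-- The map `E ^ (n + 1) → E ^ n` deleting the last coordinate. -/
def del {E : Type u} (n : ℕ) (x : Fin (n + 1) → E) : Fin n → E := fun i => x i.castSucc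

/-- `ProjClass A k n` is the family of subsets of `E ^ n` of projective class `k` over `A`. -/
def ProjClass {E : Type u} (A : ℕ → Set E) : ℕ → (n : ℕ) → Set (Set (Fin n → E))
  | 0, _ => ∅
  | 1, n => {T | ∃ S, @MeasurableSet (Fin (n + 1) → E) (rectSpace A (n + 1)) S ∧ T = del n '' S}
  | k + 2, n => {T | ∃ S ∈ ProjClass A (k + 1) (n + 1), T = del n '' Sᶜ}

/-- A subset of `E` has projective class `k` over `A`. -/
def HasClass {E : Type u} (A : ℕ → Set E) (k : ℕ) (Z : Set E) : Prop :=
  {x : Fin 1 → E | x 0 ∈ Z} ∈ ProjClass A k 1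

/-- A subset of `E` is projective over `A`. -/
def Projective {E : Type u} (A : ℕ → Set E) (Z : Set E) : Prop :=
  ∃ k, 1 ≤ k ∧ HasClass A k Z

lemma card_projClass {E : Type u} (A : ℕ → Set E) (k : ℕ) : ∀ n, #(ProjClass A k n) ≤ 𝔠 := by
  induction k using Nat.strong_induction_on with
  | _ k ih =>
    match k, ih with
    | 0, _ => intro n; simp [ProjClass]
    | 1, _ =>
      intro n
      have h1 : #{S | @MeasurableSet (Fin (n + 1) → E) (rectSpace A (n + 1)) S} ≤ 𝔠 := by
        apply MeasurableSpace.cardinal_measurableSet_le_continuum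
        refine le_trans ?_ Cardinal.aleph0_le_continuum
        rw [Cardinal.le_aleph0_iff_set_countable]
        have : {S : Set (Fin (n + 1) → E) | ∃ m : Fin (n + 1) → ℕ, S = {x | ∀ i, x i ∈ A (m i)}} =
            Set.range (fun m : Fin (n + 1) → ℕ => {x : Fin (n + 1) → E | ∀ i, x i ∈ A (m i)}) := by
          ext S; simp [eq_comm]
        rw [this]
        exact Set.countable_range _
      have h2 : ProjClass A 1 n = (fun S => del n '' S) '' {S | @MeasurableSet (Fin (n + 1) → E) (rectSpace A (n + 1)) S} := by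
        ext T
        simp only [ProjClass, mem_ofPred_eq, mem_image]
        constructor
        · rintro ⟨S, h, rfl⟩; exact ⟨S, h, rfl⟩
        · rintro ⟨S, h, rfl⟩; exact ⟨S, h, rfl⟩
      rw [h2]
      exact Cardinal.mk_image_le.trans h1
    | k + 2, ih =>
      intro n
      have h2 : ProjClass A (k + 2) n = (fun S => del n '' Sᶜ) '' (ProjClass A (k + 1) (n + 1)) := by
        ext T
        simp only [ProjClass, mem_ofPred_eq, mem_image]
        constructor
        · rintro ⟨S, h, rfl⟩; exact ⟨S, h, rfl⟩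
        · rintro ⟨S, h, rfl⟩; exact ⟨S, h, rfl⟩
      rw [h2]
      exact Cardinal.mk_image_le.trans (ih (k + 1) (by omega) (n + 1))

lemma card_projective {E : Type u} (A : ℕ → Set E) : #{Z : Set E | Projective A Z} ≤ 𝔠 := by
  have h1 : ∀ k, #{Z : Set E | HasClass A k Z} ≤ 𝔠 := by
    intro k
    refine le_trans ?_ (card_projClass A k 1)
    have hinj : Function.Injective (fun Z : Set E => {x : Fin 1 → E | x 0 ∈ Z}) := by
      intro Z Z' h
      ext z
      have := Set.ext_iff.mp h (fun _ => z)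
      simpa using this
    exact Cardinal.mk_preimage_of_injective _ _ hinj
  have h2 : {Z : Set E | Projective A Z} ⊆ ⋃ k : ULift.{u} ℕ, {Z : Set E | HasClass A k.down Z} := by
    rintro Z ⟨k, _, hk⟩
    exact mem_iUnion.mpr ⟨⟨k⟩, hk⟩
  refine (Cardinal.mk_le_mk_of_subset h2).trans ?_
  refine (Cardinal.mk_iUnion_le _).trans ?_
  refine Cardinal.mul_le_of_le Cardinal.aleph0_le_continuum ?_ ?_
  · simp [Cardinal.aleph0_le_continuum]
  · exact ciSup_le' fun k => h1 _


/-- Every family of at most continuum many subsets of `E` lies in a countably generated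
sigma-algebra. -/
def CountablyCoded (E : Type u) : Prop :=
  ∀ F : Set (Set E), #F ≤ 𝔠 → ∃ B : ℕ → Set E,
    ∀ Z ∈ F, @MeasurableSet E (MeasurableSpace.generateFrom (Set.range B)) Z

lemma rect_coord {E : Type u} (A : ℕ → Set E) (hA : ∃ m, A m = Set.univ) (i : Fin 2) (m : ℕ) :
    @MeasurableSet (Fin 2 → E) (rectSpace A 2) {x | x i ∈ A m} := by
  obtain ⟨m₀, hm₀⟩ := hA
  apply MeasurableSpace.measurableSet_generateFrom
  refine ⟨fun j => if j = i then m else m₀, ?_⟩
  ext x
  simp only [mem_ofPred_eq]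
  constructor
  · intro h j
    split_ifs with hj
    · rw [hj]; exact h
    · rw [hm₀]; trivial
  · intro h
    have := h i
    simpa using this

theorem coded_of_class_one {E : Type u} (hE : #E = 𝔠)
    (H : ∀ A : ℕ → Set E, ∃ B : ℕ → Set E, ∀ Z : Set E, HasClass A 1 Z →
      @MeasurableSet E (MeasurableSpace.generateFrom (Set.range B)) Z) : CountablyCoded E := by
  classical
  intro F hF
  -- index the family by the Cantor set
  let C : Type := ℕ → Bool
  have hC : #C = 𝔠 := by simp [C]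
  rcases F.eq_empty_or_nonempty with hFe | hFne
  · exact ⟨fun _ => ∅, fun Z hZ => by rw [hFe] at hZ; exact absurd hZ (notMem_empty _)⟩
  obtain ⟨φ, hφ⟩ : ∃ φ : C → Set E, ∀ Z ∈ F, ∃ s, φ s = Z := by
    have h1 : Cardinal.lift.{0} #F ≤ Cardinal.lift.{u} #C := by
      rw [hC]; simpa using hF
    obtain ⟨ψ⟩ := Cardinal.lift_mk_le'.mp h1
    have : Nonempty F := hFne.to_subtype
    refine ⟨fun s => (Function.invFun ψ s : F), fun Z hZ => ⟨ψ ⟨Z, hZ⟩, ?_⟩⟩
    simp only
    rw [Function.leftInverse_invFun ψ.injective]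
  have he : Nonempty (E ≃ C ⊕ (C × C)) := by
    rw [← Cardinal.lift_mk_eq', hE]
    simp [hC]
  have hu : Nonempty (E ≃ C) := by
    rw [← Cardinal.lift_mk_eq', hE, hC]
    simp
  obtain ⟨e⟩ := he
  obtain ⟨u⟩ := hu
  let D : Set (C × C) := {p | u.symm p.2 ∈ φ p.1}
  let A' : ℕ ⊕ ℕ ⊕ ℕ ⊕ Fin 3 → Set E := fun i => match i with
    | Sum.inl n => {x | ∃ t : C, e x = Sum.inl t ∧ t n = true}
    | Sum.inr (Sum.inl n) => {x | ∃ p : C × C, e x = Sum.inr p ∧ p.1 n = true}
    | Sum.inr (Sum.inr (Sum.inl n)) => {x | ∃ p : C × C, e x = Sum.inr p ∧ p.2 n = true}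
    | Sum.inr (Sum.inr (Sum.inr 0)) => Set.univ
    | Sum.inr (Sum.inr (Sum.inr 1)) => {x | ∃ t : C, e x = Sum.inl t}
    | Sum.inr (Sum.inr (Sum.inr 2)) => {x | ∃ p : C × C, e x = Sum.inr p ∧ p ∈ D}
  obtain ⟨g, hg⟩ := exists_surjective_nat (ℕ ⊕ ℕ ⊕ ℕ ⊕ Fin 3)
  let A : ℕ → Set E := fun m => A' (g m)
  have hAu : ∃ m, A m = Set.univ := by
    obtain ⟨m, hm⟩ := hg (Sum.inr (Sum.inr (Sum.inr 0)))
    exact ⟨m, by simp only [A, hm, A']⟩
  have hmeas : ∀ (i : Fin 2) (k : ℕ ⊕ ℕ ⊕ ℕ ⊕ Fin 3),
      @MeasurableSet (Fin 2 → E) (rectSpace A 2) {x | x i ∈ A' k} := by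
    intro i k
    obtain ⟨m, hm⟩ := hg k
    have := rect_coord A hAu i m
    simpa only [A, hm] using this
  obtain ⟨B, hB⟩ := H A
  -- the sections of `D` have class one
  let Zs : C → Set E := fun s => {x | ∃ t : C, e x = Sum.inl t ∧ (s, t) ∈ D}
  have hZs : ∀ s, HasClass A 1 (Zs s) := by
    intro s
    let S : Set (Fin 2 → E) := {x | x 0 ∈ A' (Sum.inr (Sum.inr (Sum.inr 1)))} ∩
      ({x | x 1 ∈ A' (Sum.inr (Sum.inr (Sum.inr 2)))} ∩
      ((⋂ n : ℕ, ({x | x 0 ∈ A' (Sum.inl n)} ∩ {x | x 1 ∈ A' (Sum.inr (Sum.inr (Sum.inl n)))}) ∪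
          ({x | x 0 ∈ A' (Sum.inl n)}ᶜ ∩ {x | x 1 ∈ A' (Sum.inr (Sum.inr (Sum.inl n)))}ᶜ)) ∩
      (⋂ n : ℕ, ({x | x 1 ∈ A' (Sum.inr (Sum.inl n))} ∩ {_x | s n = true}) ∪
          ({x | x 1 ∈ A' (Sum.inr (Sum.inl n))}ᶜ ∩ {_x | s n = false}))))
    have hS : @MeasurableSet (Fin 2 → E) (rectSpace A 2) S := by
      have h1 := hmeas 0 (Sum.inr (Sum.inr (Sum.inr 1)))
      have h2 := hmeas 1 (Sum.inr (Sum.inr (Sum.inr 2)))
      have h3 : ∀ n, @MeasurableSet (Fin 2 → E) (rectSpace A 2)
          (({x | x 0 ∈ A' (Sum.inl n)} ∩ {x | x 1 ∈ A' (Sum.inr (Sum.inr (Sum.inl n)))}) ∪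
          ({x | x 0 ∈ A' (Sum.inl n)}ᶜ ∩ {x | x 1 ∈ A' (Sum.inr (Sum.inr (Sum.inl n)))}ᶜ)) := by
        intro n
        have h4 := hmeas 0 (Sum.inl n)
        have h5 := hmeas 1 (Sum.inr (Sum.inr (Sum.inl n)))
        let _ := rectSpace A 2
        exact (h4.inter h5).union (h4.compl.inter h5.compl)
      have h4 : ∀ n, @MeasurableSet (Fin 2 → E) (rectSpace A 2)
          (({x | x 1 ∈ A' (Sum.inr (Sum.inl n))} ∩ {_x | s n = true}) ∪
          ({x | x 1 ∈ A' (Sum.inr (Sum.inl n))}ᶜ ∩ {_x | s n = false})) := by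
        intro n
        have h5 := hmeas 1 (Sum.inr (Sum.inl n))
        let _ := rectSpace A 2
        exact (h5.inter (MeasurableSet.const _)).union (h5.compl.inter (MeasurableSet.const _))
      let _ := rectSpace A 2
      exact h1.inter (h2.inter ((MeasurableSet.iInter h3).inter (MeasurableSet.iInter h4)))
    refine ⟨S, hS, ?_⟩
    ext x
    simp only [mem_ofPred_eq, mem_image]
    constructor
    · rintro ⟨t, ht, hst⟩
      refine ⟨![x 0, e.symm (Sum.inr (s, t))], ⟨?_, ?_, ?_, ?_⟩, ?_⟩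
      · exact ⟨t, ht⟩
      · exact ⟨(s, t), by simp, hst⟩
      · rw [mem_iInter]
        intro n
        by_cases h : t n = true
        · left
          exact ⟨⟨t, ht, h⟩, ⟨(s, t), by simp, h⟩⟩
        · right
          refine ⟨?_, ?_⟩
          · rintro ⟨t', ht', h'⟩
            have h1 : (Sum.inl t : C ⊕ (C × C)) = Sum.inl t' := ht.symm.trans ht'
            exact h (by rw [Sum.inl.inj h1]; exact h')
          · rintro ⟨p, hp, h'⟩
            simp only [Matrix.cons_val_one, Matrix.cons_val_fin_one, Equiv.apply_symm_apply, Sum.inr.injEq] at hp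
            exact h (by rw [← hp] at h'; exact h')
      · rw [mem_iInter]
        intro n
        by_cases h : s n = true
        · left
          exact ⟨⟨(s, t), by simp, h⟩, h⟩
        · right
          refine ⟨?_, by simpa using h⟩
          rintro ⟨p, hp, h'⟩
          simp only [Matrix.cons_val_one, Matrix.cons_val_fin_one, Equiv.apply_symm_apply, Sum.inr.injEq] at hp
          exact h (by rw [← hp] at h'; exact h')
      · funext i
        fin_cases i
        rfl
    · rintro ⟨y, ⟨⟨t, ht⟩, ⟨p, hp, hpD⟩, h3, h4⟩, rfl⟩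
      refine ⟨t, ht, ?_⟩
      have h5 : p.2 = t := by
        funext n
        have := mem_iInter.mp h3 n
        rcases this with ⟨⟨t', ht', h6⟩, ⟨p', hp', h7⟩⟩ | ⟨h6, h7⟩
        · have h8 : t = t' := Sum.inl.inj (ht.symm.trans ht')
          have h9 : p = p' := Sum.inr.inj (hp.symm.trans hp')
          rw [h8, h9, h6, h7]
        · have h8 : t n ≠ true := fun h => h6 ⟨t, ht, h⟩
          have h9 : p.2 n ≠ true := fun h => h7 ⟨p, hp, h⟩
          simp only [ne_eq, Bool.not_eq_true] at h8 h9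
          rw [h8, h9]
      have h6 : p.1 = s := by
        funext n
        have := mem_iInter.mp h4 n
        rcases this with ⟨⟨p', hp', h7⟩, h8⟩ | ⟨h7, h8⟩
        · have h9 : p = p' := Sum.inr.inj (hp.symm.trans hp')
          rw [h9, h7]; exact h8.symm
        · have h9 : p.1 n ≠ true := fun h => h7 ⟨p, hp, h⟩
          simp only [Bool.not_eq_true] at h9
          rw [h9]; exact h8.symm
      rw [← h5, ← h6]
      exact hpD
  -- transport back
  let k : E → E := fun z => e.symm (Sum.inl (u z))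
  refine ⟨fun n => k ⁻¹' B n, ?_⟩
  intro Z hZ
  obtain ⟨s, rfl⟩ := hφ Z hZ
  have h1 := hB _ (hZs s)
  have h2 : φ s = k ⁻¹' (Zs s) := by
    ext z
    simp [k, Zs, D]
  rw [h2]
  have hk : @Measurable E E (MeasurableSpace.generateFrom (Set.range fun n => k ⁻¹' B n))
      (MeasurableSpace.generateFrom (Set.range B)) k := by
    apply @measurable_generateFrom _ _ (MeasurableSpace.generateFrom (Set.range fun n => k ⁻¹' B n))
    rintro _ ⟨n, rfl⟩
    exact MeasurableSpace.measurableSet_generateFrom ⟨n, rfl⟩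
  exact hk h1

/-- For a set `E` of the cardinality of the continuum the following are equivalent: for every
sequence `A` the sets projective over `A` lie in a countably generated sigma-algebra; the same for
sets of projective class one only; every family of at most continuum many subsets of `E` lies in
a countably generated sigma-algebra. -/
theorem result (E : Type u) (hE : #E = 𝔠) :
    List.TFAE [
      (∀ A : ℕ → Set E, ∃ B : ℕ → Set E, ∀ Z : Set E, Projective A Z →
        @MeasurableSet E (MeasurableSpace.generateFrom (Set.range B)) Z),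
      (∀ A : ℕ → Set E, ∃ B : ℕ → Set E, ∀ Z : Set E, HasClass A 1 Z →
        @MeasurableSet E (MeasurableSpace.generateFrom (Set.range B)) Z),
      (∀ F : Set (Set E), #F ≤ 𝔠 → ∃ B : ℕ → Set E,
        ∀ Z ∈ F, @MeasurableSet E (MeasurableSpace.generateFrom (Set.range B)) Z)] := by
  tfae_have 1 → 2 := by
    intro H A
    obtain ⟨B, hB⟩ := H A
    exact ⟨B, fun Z hZ => hB Z ⟨1, le_rfl, hZ⟩⟩
  tfae_have 2 → 3 := coded_of_class_one hE
  tfae_have 3 → 1 := by
    intro H A
    exact H {Z | Projective A Z} (card_projective A)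
  tfae_finish

end Pool.Agent.Results.MP_17aaef_lc.FamilyEquivalence
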