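import Pool.Agent.Helper292.ForceCH

/-!
# The symmetry principle in the forcing language, and automorphisms
-/

set_option autoImplicit false

open Pool.Agent.Helper292.ForceCH

namespace Pool.Agent.Helper835.KS

universe u v w

section

variable {P : Type u} [Preorder P]

/-- `p` forces `{i < n : i ∈ x} = u`, where `x` is a name for a subset of `ℕ`. -/
def IsTrace (x : ℕ → Set P) (n : ℕ) (u : Finset ℕ) : Set P :=
  fand (fground (∀ i ∈ u, i < n))
    (fall fun i : ℕ => fimp (fground (i < n)) (fiff (meets (x i)) (fground (i ∈ u))))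

/-- `p` forces that the list `w` is `z 0, ..., z (n - 1)`, where `z` is a name for a function
from `ℕ` to `ℕ`. -/
def IsPrefix (z : ℕ → ℕ → Set P) (n : ℕ) (w : List ℕ) : Set P :=
  fand (fground (w.length = n))
    (fall fun i : ℕ => fall fun c : ℕ => fimp (fground (w[i]? = some c)) (meets (z i c)))

/-- `p` forces `x ∈ p[t]`: there is a function `z` from `ℕ` to `ℕ` such that for every `n` the
pair (`{i < n : i ∈ x}`, `z 0, ..., z (n - 1)`) belongs to `t`. -/
def InProj (t : Finset ℕ × List ℕ → Set P) (x : ℕ → Set P) : Set P :=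
  fex fun z : ℕ → ℕ → Set P => fand (IsFun z)
    (fall fun n : ℕ => fex fun u : Finset ℕ => fex fun w : List ℕ =>
      fand (IsTrace x n u) (fand (IsPrefix z n w) (meets (t (u, w)))))

end

section

variable (P : Type u) [Preorder P] (K : Type v) [LinearOrder K]

/-- The symmetry principle for the (ground model) linear order `K` holds in the extension: there
is an injection of `K` into the power set of `ℕ`; and for every family `h a` (`a ∈ K`) of subsets
of `ℕ` and every family `t a` (`a ∈ K`) of sets of pairs there are `a < b` such that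
`h a ∈ p[t b]` implies `h b ∈ p[t a]`. -/
def SymmetryHolds : Set P :=
  fand
    (fex fun g : K → ℕ → Set P => fall fun a : K => fall fun b : K =>
      fimp (fall fun n : ℕ => fiff (meets (g a n)) (meets (g b n))) (fground (a = b)))
    (fall fun h : K → ℕ → Set P => fall fun t : K → Finset ℕ × List ℕ → Set P =>
      fex fun a : K => fex fun b : K => fand (fground (a < b))
        (fimp (InProj (t b) (h a)) (InProj (t a) (h b))))

end

/-! ### Regularity -/

section

variable {P : Type u} [Preorder P]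

theorem fnot_of_dense {φ : Set P} (hφ : Down φ) {p : P} (h : ∀ q ≤ p, ∃ r ≤ q, r ∈ fnot φ) :
    p ∈ fnot φ := by
  intro q hq hqφ
  obtain ⟨r, hr, h'⟩ := h q hq
  exact h' r le_rfl (hφ _ hqφ _ hr)

theorem fex_of_dense {ι : Sort v} {φ : ι → Set P} {p : P} (h : ∀ q ≤ p, ∃ r ≤ q, r ∈ fex φ) :
    p ∈ fex φ := by
  rw [mem_fex]
  intro q hq
  obtain ⟨r, hr, h'⟩ := h q hq
  obtain ⟨s, hs, i, hi⟩ := mem_fex.1 h' r le_rfl
  exact ⟨s, hs.trans hr, i, hi⟩

end

/-! ### Automorphisms -/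

section

variable {P : Type u} [Preorder P] (σ : P ≃o P)

theorem pre_fnot (φ : Set P) : σ ⁻¹' (fnot φ) = fnot (σ ⁻¹' φ) := by
  ext p
  constructor
  · intro h q hq
    exact h (σ q) (σ.monotone hq)
  · intro h q hq hqφ
    refine h (σ.symm q) ?_ ?_
    · rw [OrderIso.symm_apply_le]; exact hq
    · simpa using hqφ

theorem pre_fand (φ ψ : Set P) : σ ⁻¹' (fand φ ψ) = fand (σ ⁻¹' φ) (σ ⁻¹' ψ) := rfl

theorem pre_fall {ι : Sort v} (φ : ι → Set P) :
    σ ⁻¹' (fall φ) = fall fun i => σ ⁻¹' (φ i) := rfl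

theorem pre_fground (h : Prop) : σ ⁻¹' (fground h : Set P) = fground h := rfl

theorem pre_fimp (φ ψ : Set P) : σ ⁻¹' (fimp φ ψ) = fimp (σ ⁻¹' φ) (σ ⁻¹' ψ) := by
  simp only [fimp, pre_fnot, pre_fand]

theorem pre_fiff (φ ψ : Set P) : σ ⁻¹' (fiff φ ψ) = fiff (σ ⁻¹' φ) (σ ⁻¹' ψ) := by
  simp only [fiff, pre_fimp, pre_fand]

theorem pre_fex {ι : Sort v} (φ : ι → Set P) :
    σ ⁻¹' (fex φ) = fex fun i => σ ⁻¹' (φ i) := by
  simp only [fex, pre_fnot, pre_fall]

theorem pre_meets (N : Set P) : σ ⁻¹' (meets N) = meets (σ ⁻¹' N) := by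
  ext p
  constructor
  · intro h q hq
    obtain ⟨r, hr, s, hs, hrs⟩ := h (σ q) (σ.monotone hq)
    refine ⟨σ.symm r, ?_, σ.symm s, ?_, σ.symm.monotone hrs⟩
    · rw [OrderIso.symm_apply_le]; exact hr
    · simpa using hs
  · intro h q hq
    obtain ⟨r, hr, s, hs, hrs⟩ := h (σ.symm q) (by rw [OrderIso.symm_apply_le]; exact hq)
    refine ⟨σ r, ?_, σ s, hs, σ.monotone hrs⟩
    rw [← OrderIso.le_symm_apply]; exact hr

theorem pre_isFun (z : ℕ → ℕ → Set P) :
    σ ⁻¹' (IsFun z) = IsFun fun i j => σ ⁻¹' (z i j) := by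
  simp only [IsFun, pre_fand, pre_fall, pre_fex, pre_fimp, pre_fground, pre_meets]

theorem pre_isTrace (x : ℕ → Set P) (n : ℕ) (s : Finset ℕ) :
    σ ⁻¹' (IsTrace x n s) = IsTrace (fun i => σ ⁻¹' (x i)) n s := by
  simp only [IsTrace, pre_fand, pre_fall, pre_fiff, pre_fimp, pre_fground, pre_meets]

theorem pre_isPrefix (z : ℕ → ℕ → Set P) (n : ℕ) (w : List ℕ) :
    σ ⁻¹' (IsPrefix z n w) = IsPrefix (fun i j => σ ⁻¹' (z i j)) n w := by
  simp only [IsPrefix, pre_fand, pre_fall, pre_fimp, pre_fground, pre_meets]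

theorem fex_comp {ι : Sort v} {κ : Sort w} (φ : ι → Set P) (f : κ → ι)
    (hf : Function.Surjective f) : (fex fun k => φ (f k)) = fex φ := by
  ext p
  simp only [mem_fex]
  constructor
  · intro h q hq
    obtain ⟨r, hr, k, hk⟩ := h q hq
    exact ⟨r, hr, f k, hk⟩
  · intro h q hq
    obtain ⟨r, hr, i, hi⟩ := h q hq
    obtain ⟨k, rfl⟩ := hf i
    exact ⟨r, hr, k, hi⟩

/-- the body of `InProj` -/
def Body (t : Finset ℕ × List ℕ → Set P) (x : ℕ → Set P) (z : ℕ → ℕ → Set P) : Set P :=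
  fand (IsFun z)
    (fall fun n : ℕ => fex fun u : Finset ℕ => fex fun w : List ℕ =>
      fand (IsTrace x n u) (fand (IsPrefix z n w) (meets (t (u, w)))))

theorem pre_body (t : Finset ℕ × List ℕ → Set P) (x : ℕ → Set P) (z : ℕ → ℕ → Set P) :
    σ ⁻¹' (Body t x z) =
      Body (fun i => σ ⁻¹' (t i)) (fun i => σ ⁻¹' (x i)) (fun i j => σ ⁻¹' (z i j)) := by
  simp only [Body, pre_fand, pre_fall, pre_fex, pre_isFun, pre_isTrace, pre_isPrefix, pre_meets]

theorem pre_inProj (t : Finset ℕ × List ℕ → Set P) (x : ℕ → Set P) :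
    σ ⁻¹' (InProj t x) = InProj (fun i => σ ⁻¹' (t i)) (fun i => σ ⁻¹' (x i)) := by
  have h1 : ∀ (t : Finset ℕ × List ℕ → Set P) (x : ℕ → Set P), InProj t x = fex (Body t x) :=
    fun _ _ => rfl
  rw [h1, h1, pre_fex]
  have h2 : (fun z => σ ⁻¹' (Body t x z)) = fun z => Body (fun i => σ ⁻¹' (t i))
      (fun i => σ ⁻¹' (x i)) ((fun z i j => σ ⁻¹' (z i j)) z) := by
    funext z
    exact pre_body σ t x z
  rw [h2]
  apply fex_comp (Body (fun i => σ ⁻¹' (t i)) (fun i => σ ⁻¹' (x i)))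
    (fun (z : ℕ → ℕ → Set P) i j => σ ⁻¹' (z i j))
  intro z
  refine ⟨fun i j => σ.symm ⁻¹' (z i j), ?_⟩
  funext i j
  ext p
  simp

end

/-! ### Names with the same meaning -/

section

variable {P : Type u} [Preorder P]

theorem isTrace_congr {x x' : ℕ → Set P} (h : ∀ i, meets (x i) = meets (x' i)) (n : ℕ)
    (s : Finset ℕ) : IsTrace x n s = IsTrace x' n s := by
  simp only [IsTrace, h]

theorem inProj_congr {t t' : Finset ℕ × List ℕ → Set P} {x x' : ℕ → Set P}
    (ht : ∀ i, meets (t i) = meets (t' i)) (hx : ∀ i, meets (x i) = meets (x' i)) :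
    InProj t x = InProj t' x' := by
  simp only [InProj, isTrace_congr hx, ht]

end

end Pool.Agent.Helper835.KS
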