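import Pool.Agent.Helper835.KS.Cohen

/-!
# The Cohen conditions force the symmetry principle
-/

set_option autoImplicit false

open Set Cardinal
open Pool.Agent.Helper292.ForceCH

namespace Pool.Agent.Helper835.KS

section

variable {K : Type}

/-- the support of a condition -/
def supp (p : Cond K) : Set K := (fun x : (K × ℕ) × Bool => x.1.1) '' (p.1 : Set ((K × ℕ) × Bool))

theorem supp_countable (p : Cond K) : (supp p).Countable :=
  (p.1.finite_toSet.image _).countable

theorem mem_supp {p : Cond K} {x : (K × ℕ) × Bool} (h : x ∈ p.1) : x.1.1 ∈ supp p :=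
  ⟨x, h, rfl⟩

theorem exists_enum (hK : ℵ₀ ≤ #K) (D : Set K) (hD : D.Countable) :
    ∃ e : ℕ ↪ K, D ⊆ range e := by
  have hinf : Infinite K := Cardinal.infinite_iff.2 hK
  let ι : ℕ ↪ K := Infinite.natEmbedding K
  let D' : Set K := D ∪ range ι
  have h1 : D'.Countable := hD.union (countable_range ι)
  have h2 : D'.Infinite := (infinite_range_of_injective ι.injective).mono subset_union_right
  have h3 : Countable D' := h1.to_subtype
  have h4 : Infinite D' := h2.to_subtype
  obtain ⟨h5⟩ := nonempty_denumerable D'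
  refine ⟨(Denumerable.eqv D').symm.toEmbedding.trans (Function.Embedding.subtype _), ?_⟩
  intro x hx
  exact ⟨Denumerable.eqv D' ⟨x, Or.inl hx⟩, by simp⟩

instance : Countable (Cond ℕ) := by
  unfold Cond
  infer_instance

/-- codes of pairs of names -/
abbrev Code : Type := (ℕ → Set (Cond ℕ)) × (Finset ℕ × List ℕ → Set (Cond ℕ))

theorem card_code : #Code ≤ 𝔠 := by
  have h1 : #(Set (Cond ℕ)) ≤ 𝔠 := by
    rw [Cardinal.mk_set, ← Cardinal.two_power_aleph0]
    exact Cardinal.power_le_power_left two_ne_zero Cardinal.mk_le_aleph0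
  have h2 : ∀ T : Type, Countable T → #(T → Set (Cond ℕ)) ≤ 𝔠 := by
    intro T hT
    rw [← Cardinal.power_def]
    have h3 : #(Set (Cond ℕ)) ^ #T ≤ 𝔠 ^ #T := Cardinal.power_le_power_right h1
    have h4 : (𝔠 : Cardinal.{0}) ^ #T ≤ 𝔠 ^ (ℵ₀ : Cardinal.{0}) :=
      Cardinal.power_le_power_left Cardinal.continuum_ne_zero Cardinal.mk_le_aleph0
    exact h3.trans (h4.trans (by simp))
  rw [Cardinal.mk_prod]
  simp only [Cardinal.lift_id]
  exact (mul_le_mul' (h2 _ inferInstance) (h2 _ inferInstance)).trans (by simp)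

theorem pre_name (u v : ℕ ↪ K) (π : K ≃ K) (hπ : ∀ i, π (u i) = v i) (N N' : Set (Cond K))
    (hN : ∀ p ∈ N, supp p ⊆ range u) (hN' : ∀ p ∈ N', supp p ⊆ range v)
    (h : {r : Cond ℕ | r.map u ∈ N} = {r : Cond ℕ | r.map v ∈ N'}) :
    (auto π) ⁻¹' N' = N := by
  have h1 : ∀ r : Cond ℕ, auto π (r.map u) = r.map v := by
    intro r
    change (r.map u).map π.toEmbedding = r.map v
    rw [Cond.map_map]
    have h2 : u.trans π.toEmbedding = v := by
      ext i
      exact hπ i
    rw [h2]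
  ext p
  constructor
  · intro hp
    obtain ⟨r, hr⟩ := exists_map_eq v (auto π p) (fun x hx => hN' _ hp (mem_supp hx))
    have h3 : r ∈ {r : Cond ℕ | r.map v ∈ N'} := by
      change r.map v ∈ N'
      rw [hr]; exact hp
    rw [← h] at h3
    have h4 : r.map u = p := by
      apply (auto π).injective
      rw [h1, hr]
    rw [← h4]; exact h3
  · intro hp
    obtain ⟨r, hr⟩ := exists_map_eq u p (fun x hx => hN _ hp (mem_supp hx))
    have h3 : r ∈ {r : Cond ℕ | r.map u ∈ N} := by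
      change r.map u ∈ N
      rw [hr]; exact hp
    rw [h] at h3
    change auto π p ∈ N'
    rw [← hr, h1]
    exact h3

theorem mem_fex_of {P : Type} [Preorder P] {ι : Type} {φ : ι → Set P} {p : P} (i : ι)
    (hφ : Down (φ i)) (h : p ∈ φ i) : p ∈ fex φ :=
  mem_fex.2 fun q hq => ⟨q, le_rfl, i, hφ _ h _ hq⟩

variable [LinearOrder K]

theorem symmetric_part (hK : 𝔠 < #K) (p : Cond K) (h : K → ℕ → Set (Cond K))
    (t : K → Finset ℕ × List ℕ → Set (Cond K)) :
    p ∈ fex fun a : K => fex fun b : K => fand (fground (a < b))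
        (fimp (InProj (t b) (h a)) (InProj (t a) (h b))) := by
  rw [mem_fex]
  by_contra hcon
  push Not at hcon
  obtain ⟨q₀, hq₀, hcon⟩ := hcon
  have h1 : ∀ a b, a < b → ∀ r ≤ q₀, ∃ s ≤ r, s ∈ InProj (t b) (h a) ∧
      s ∈ fnot (InProj (t a) (h b)) := by
    intro a b hab r hr
    by_contra hno
    push Not at hno
    refine hcon r hr a (mem_fex_of b ?_ ⟨hab, ?_⟩)
    · exact down_fand (fun _ h _ _ => h) (down_fimp _ _)
    · intro s hs hs'
      exact hno s hs hs'.1 hs'.2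
  have h2 : ∀ a b, a < b → q₀ ∈ InProj (t b) (h a) ∧ q₀ ∈ fnot (InProj (t a) (h b)) := by
    intro a b hab
    constructor
    · apply fex_of_dense
      intro r hr
      obtain ⟨s, hs, h3, _⟩ := h1 a b hab r hr
      exact ⟨s, hs, h3⟩
    · apply fnot_of_dense (down_fex _)
      intro r hr
      obtain ⟨s, hs, _, h3⟩ := h1 a b hab r hr
      exact ⟨s, hs, h3⟩
  -- nice names
  choose h' hh' hh using fun a n => exists_countable_name (h a n)
  choose t' ht' ht using fun a i => exists_countable_name (t a i)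
  have hX : ∀ a b, InProj (t b) (h a) = InProj (t' b) (h' a) := fun a b =>
    inProj_congr (fun i => (ht b i).symm) (fun i => (hh a i).symm)
  let D : K → Set K := fun a => {a} ∪ supp q₀ ∪ (⋃ n, ⋃ r ∈ h' a n, supp r) ∪
    (⋃ i, ⋃ r ∈ t' a i, supp r)
  have hD : ∀ a, (D a).Countable := by
    intro a
    refine (((countable_singleton a).union (supp_countable q₀)).union ?_).union ?_
    · exact countable_iUnion fun n => (hh' a n).biUnion fun r _ => supp_countable r
    · exact countable_iUnion fun i => (ht' a i).biUnion fun r _ => supp_countable r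
  choose e he using fun a => exists_enum (Cardinal.aleph0_lt_continuum.le.trans hK.le) (D a) (hD a)
  have he1 : ∀ a, a ∈ range (e a) := fun a => he a (Or.inl (Or.inl (Or.inl rfl)))
  have he2 : ∀ a, supp q₀ ⊆ range (e a) := fun a x hx => he a (Or.inl (Or.inl (Or.inr hx)))
  have he3 : ∀ a n, ∀ r ∈ h' a n, supp r ⊆ range (e a) := by
    intro a n r hr x hx
    apply he a
    refine Or.inl (Or.inr ?_)
    exact mem_iUnion.2 ⟨n, mem_biUnion hr hx⟩
  have he4 : ∀ a i, ∀ r ∈ t' a i, supp r ⊆ range (e a) := by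
    intro a i r hr x hx
    apply he a
    refine Or.inr ?_
    exact mem_iUnion.2 ⟨i, mem_biUnion hr hx⟩
  let c : K → Code := fun a => (fun n => {r | r.map (e a) ∈ h' a n},
    fun i => {r | r.map (e a) ∈ t' a i})
  obtain ⟨a, b, hab, hc, hij, hR⟩ := exists_pair card_code hK (fun a => e a)
    (fun a => (e a).injective) he1 (supp q₀) he2 c
  obtain ⟨π, hπ1, hπ2, _⟩ := exists_swap (e a) (e b) (e a).injective (e b).injective hij
  have hc1 : ∀ n, {r : Cond ℕ | r.map (e a) ∈ h' a n} = {r | r.map (e b) ∈ h' b n} := fun n =>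
    congrFun (Prod.ext_iff.1 hc).1 n
  have hc2 : ∀ i, {r : Cond ℕ | r.map (e a) ∈ t' a i} = {r | r.map (e b) ∈ t' b i} := fun i =>
    congrFun (Prod.ext_iff.1 hc).2 i
  have hfix : auto π q₀ = q₀ := by
    apply Cond.map_of_fix
    intro x hx
    obtain ⟨i, hi⟩ := he2 a (mem_supp hx)
    have h3 := hR i (by rw [hi]; exact mem_supp hx)
    change π x.1.1 = x.1.1
    rw [← hi, hπ1, h3]
  have e1 : ∀ n, (auto π) ⁻¹' (h' b n) = h' a n := fun n =>
    pre_name (e a) (e b) π hπ1 _ _ (he3 a n) (he3 b n) (hc1 n)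
  have e2 : ∀ n, (auto π) ⁻¹' (h' a n) = h' b n := fun n =>
    pre_name (e b) (e a) π hπ2 _ _ (he3 b n) (he3 a n) (hc1 n).symm
  have e3 : ∀ i, (auto π) ⁻¹' (t' b i) = t' a i := fun i =>
    pre_name (e a) (e b) π hπ1 _ _ (he4 a i) (he4 b i) (hc2 i)
  have e4 : ∀ i, (auto π) ⁻¹' (t' a i) = t' b i := fun i =>
    pre_name (e b) (e a) π hπ2 _ _ (he4 b i) (he4 a i) (hc2 i).symm
  have k1 : (auto π) ⁻¹' (InProj (t b) (h a)) = InProj (t a) (h b) := by
    rw [hX a b, hX b a, pre_inProj]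
    simp only [e2, e3]
  have k2 : (auto π) ⁻¹' (InProj (t a) (h b)) = InProj (t b) (h a) := by
    rw [hX a b, hX b a, pre_inProj]
    simp only [e1, e4]
  rcases lt_or_gt_of_ne hab with hlt | hlt
  · obtain ⟨h3, h4⟩ := h2 a b hlt
    apply h4 q₀ le_rfl
    rw [← k1]
    rw [Set.mem_preimage, hfix]; exact h3
  · obtain ⟨h3, h4⟩ := h2 b a hlt
    apply h4 q₀ le_rfl
    rw [← k2]
    rw [Set.mem_preimage, hfix]; exact h3

/-- the generic subsets of `ℕ` -/
def gen (a : K) (n : ℕ) : Set (Cond K) := {p | ((a, n), true) ∈ p.1}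

omit [LinearOrder K] in
theorem mem_meets_gen {a : K} {n : ℕ} {p : Cond K} (h : ((a, n), true) ∈ p.1) :
    p ∈ meets (gen a n) :=
  fun q hq => ⟨q, le_rfl, q, hq h, le_rfl⟩

omit [LinearOrder K] in
theorem mem_fnot_gen {a : K} {n : ℕ} {p : Cond K} (h : ((a, n), false) ∈ p.1) :
    p ∈ fnot (meets (gen a n)) := by
  intro q hq hq'
  obtain ⟨r, hr, s, hs, hrs⟩ := hq' q le_rfl
  exact r.2 _ _ (hr (hq h)) (hrs hs)

omit [LinearOrder K] in
theorem exists_split (p : Cond K) {a b : K} (hab : a ≠ b) :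
    ∃ q ≤ p, ∃ n, ((a, n), true) ∈ q.1 ∧ ((b, n), false) ∈ q.1 := by
  classical
  obtain ⟨n, hn⟩ : ∃ n : ℕ, ∀ x ∈ p.1, x.1.2 ≠ n := by
    obtain ⟨n, hn⟩ := Infinite.exists_notMem_finset (p.1.image fun x => x.1.2)
    refine ⟨n, fun x hx h => hn (Finset.mem_image.2 ⟨x, hx, h⟩)⟩
  refine ⟨⟨insert ((a, n), true) (insert ((b, n), false) p.1), ?_⟩, ?_, n, ?_, ?_⟩
  · intro x β hx hx'
    simp only [Finset.mem_insert, Prod.ext_iff] at hx hx'
    rcases hx with ⟨⟨h1, h2⟩, h3⟩ | ⟨⟨h1, h2⟩, h3⟩ | hx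
    · rcases hx' with ⟨⟨h4, h5⟩, h6⟩ | ⟨⟨h4, h5⟩, h6⟩ | hx'
      · rw [h3] at h6; exact absurd h6 (by decide)
      · exact hab (h1.symm.trans h4)
      · exact hn _ hx' h2
    · rcases hx' with ⟨⟨h4, h5⟩, h6⟩ | ⟨⟨h4, h5⟩, h6⟩ | hx'
      · exact hab (h4.symm.trans h1)
      · rw [h3] at h6; exact absurd h6 (by decide)
      · exact hn _ hx' h2
    · rcases hx' with ⟨⟨h4, h5⟩, h6⟩ | ⟨⟨h4, h5⟩, h6⟩ | hx'
      · exact hn _ hx h5
      · exact hn _ hx h5
      · exact p.2 _ _ hx hx'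
  · intro x hx
    exact Finset.mem_insert_of_mem (Finset.mem_insert_of_mem hx)
  · exact Finset.mem_insert_self _ _
  · exact Finset.mem_insert_of_mem (Finset.mem_insert_self _ _)

omit [LinearOrder K] in
theorem injection_part (p : Cond K) :
    p ∈ (fex fun g : K → ℕ → Set (Cond K) => fall fun a : K => fall fun b : K =>
      fimp (fall fun n : ℕ => fiff (meets (g a n)) (meets (g b n))) (fground (a = b)) :
        Set (Cond K)) := by
  apply mem_fex.2
  intro q _
  refine ⟨q, le_rfl, gen, ?_⟩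
  intro a b
  apply fimp_of
  intro r _ hr
  by_contra hab
  obtain ⟨s, hs, n, h1, h2⟩ := exists_split r hab
  obtain ⟨s', hs', h3⟩ := mem_fimp.1 (hr n).1 s hs (mem_meets_gen h1)
  exact mem_fnot_gen h2 s' hs' h3

/-- **The Cohen conditions force the symmetry principle.** -/
theorem symmetryHolds (hK : 𝔠 < #K) (p : Cond K) : p ∈ SymmetryHolds (Cond K) K :=
  ⟨injection_part p, fun h t => symmetric_part hK p h t⟩

end

end Pool.Agent.Helper835.KS
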