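import Pool.Agent.Helper835.KS.FamilyEq

/-!
# The two combinatorial consequences
-/

set_option autoImplicit false

open Set Cardinal
open Pool.Agent.Results.MP_17aaef_lc.FamilyEquivalence

namespace Pool.Agent.Helper835.KS

universe u

/-- `x ∈ p[t]`: there is `z : ℕ → ℕ` such that for every `n` the pair
(`{i < n : i ∈ x}`, `z 0, ..., z (n - 1)`) belongs to `t`. -/
def proj (t : Set (Finset ℕ × List ℕ)) : Set (Set ℕ) :=
  {x | ∃ z : ℕ → ℕ, ∀ n, ∃ s : Finset ℕ, ((∀ i ∈ s, i < n) ∧ ∀ i < n, (i ∈ x ↔ i ∈ s)) ∧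
    (s, (List.range n).map z) ∈ t}

/-- The symmetry principle for the linear order `K`. -/
def Symmetry (K : Type) [LinearOrder K] : Prop :=
  (∃ g : K → Set ℕ, Function.Injective g) ∧
    ∀ (h : K → Set ℕ) (t : K → Set (Finset ℕ × List ℕ)), ∃ a b, a < b ∧
      (h a ∈ proj (t b) → h b ∈ proj (t a))

theorem polish_bool : PolishSpace Bool := inferInstance

theorem polish_cantor : PolishSpace (ℕ → Bool) := by
  have := polish_bool
  infer_instance

/-- Borel sets are of the form `p[t]`. -/
theorem exists_tree (C : Set (ℕ → Bool)) (hC : MeasurableSet C) :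
    ∃ t : Set (Finset ℕ × List ℕ), ∀ y : ℕ → Bool, {n | y n = true} ∈ proj t ↔ y ∈ C := by
  classical
  have := polish_cantor
  have hA : MeasureTheory.AnalyticSet C := hC.analyticSet
  rw [MeasureTheory.AnalyticSet] at hA
  rcases hA with h | ⟨f, hf, rfl⟩
  · refine ⟨∅, fun y => ?_⟩
    rw [h]
    constructor
    · rintro ⟨z, hz⟩
      obtain ⟨s, _, h2⟩ := hz 0
      exact absurd h2 (notMem_empty _)
    · intro h; exact absurd h (notMem_empty _)
  · refine ⟨{q | ∃ (n : ℕ) (z : ℕ → ℕ), q.2 = (List.range n).map z ∧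
      ∀ i < n, (f z i = true ↔ i ∈ q.1)}, fun y => ?_⟩
    constructor
    · rintro ⟨z, hz⟩
      have h1 : ∀ n, ∃ z' : ℕ → ℕ, (∀ i < n, z' i = z i) ∧ ∀ i < n, f z' i = y i := by
        intro n
        obtain ⟨s, ⟨h1, h2⟩, n', z', h3, h4⟩ := hz n
        simp only at h3 h4
        have h5 : n = n' := by
          have := congrArg List.length h3
          simpa using this
        subst h5
        refine ⟨z', ?_, ?_⟩
        · intro i hi
          have h6 := List.map_inj_left.1 h3 i (List.mem_range.2 hi)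
          exact h6.symm
        · intro i hi
          have h6 := (h4 i hi).trans (h2 i hi).symm
          simp only [mem_ofPred_eq] at h6
          exact Bool.eq_iff_iff.2 h6
      choose z' hz1 hz2 using h1
      have hlim : Filter.Tendsto z' Filter.atTop (nhds z) := by
        rw [tendsto_pi_nhds]
        intro i
        apply tendsto_const_nhds.congr'
        filter_upwards [Filter.eventually_gt_atTop i] with n hn
        exact (hz1 n i hn).symm
      have hlim2 : Filter.Tendsto (fun n => f (z' n)) Filter.atTop (nhds (f z)) :=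
        (hf.tendsto z).comp hlim
      refine ⟨z, ?_⟩
      funext i
      have h2 := (tendsto_pi_nhds.1 hlim2) i
      have h3 : Filter.Tendsto (fun n => f (z' n) i) Filter.atTop (nhds (y i)) := by
        apply tendsto_const_nhds.congr'
        filter_upwards [Filter.eventually_gt_atTop i] with n hn
        exact (hz2 n i hn).symm
      exact tendsto_nhds_unique h2 h3
    · rintro ⟨z, rfl⟩
      refine ⟨z, fun n => ⟨(Finset.range n).filter fun i => f z i = true, ⟨?_, ?_⟩, n, z, rfl, ?_⟩⟩
      · intro i hi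
        exact Finset.mem_range.1 (Finset.mem_filter.1 hi).1
      · intro i hi
        simp [hi]
      · intro i hi
        simp [hi]

/-- sets in the sigma-algebra generated by a sequence are preimages of Borel sets -/
theorem exists_borel {E : Type u} (B : ℕ → Set E) (Z : Set E)
    (hZ : @MeasurableSet E (MeasurableSpace.generateFrom (Set.range B)) Z) :
    ∃ t : Set (Finset ℕ × List ℕ), ∀ x, {n | x ∈ B n} ∈ proj t ↔ x ∈ Z := by
  classical
  let m : E → ℕ → Bool := fun x n => decide (x ∈ B n)
  have h1 : MeasurableSpace.generateFrom (Set.range B) ≤ MeasurableSpace.comap m inferInstance := by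
    apply MeasurableSpace.generateFrom_le
    rintro _ ⟨n, rfl⟩
    refine ⟨{y | y n = true}, ?_, ?_⟩
    · exact measurableSet_eq_fun (measurable_pi_apply n) measurable_const
    · ext x
      simp [m]
  obtain ⟨C, hC, hCZ⟩ := h1 Z hZ
  obtain ⟨t, ht⟩ := exists_tree C hC
  refine ⟨t, fun x => ?_⟩
  have h2 := ht (m x)
  have h3 : {n | m x n = true} = {n | x ∈ B n} := by
    ext n
    simp [m]
  rw [h3] at h2
  rw [h2, ← hCZ]
  rfl

/-- The symmetry principle refutes `(3)` -/
theorem not_coded {K : Type} [LinearOrder K] (hK : Symmetry K) (E : Type u) (hE : #E = 𝔠) :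
    ¬ CountablyCoded E := by
  intro H
  obtain ⟨⟨g, hg⟩, hsym⟩ := hK
  have hK1 : #K ≤ 𝔠 := by
    have := Cardinal.mk_le_of_injective hg
    rwa [Cardinal.mk_set, Cardinal.mk_nat, Cardinal.two_power_aleph0] at this
  have hι : Nonempty (K ↪ E) := by
    rw [← Cardinal.lift_mk_le', hE]
    simpa using hK1
  obtain ⟨ι⟩ := hι
  let I : K → Set E := fun b => {x | ∃ a, a < b ∧ ι a = x}
  have hF : #(Set.range I) ≤ 𝔠 := by
    have h1 := Cardinal.mk_range_le_lift (f := I)
    have h2 : Cardinal.lift.{u} #K ≤ Cardinal.lift.{u} (𝔠 : Cardinal.{0}) :=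
      Cardinal.lift_le.2 hK1
    have h3 := h1.trans h2
    simpa using h3
  obtain ⟨B, hB⟩ := H _ hF
  choose t ht using fun b => exists_borel B (I b) (hB _ ⟨b, rfl⟩)
  obtain ⟨a, b, hab, h⟩ := hsym (fun a => {n | ι a ∈ B n}) t
  have h1 : ι a ∈ I b := ⟨a, hab, rfl⟩
  have h2 := (ht a (ι b)).1 (h ((ht b (ι a)).2 h1))
  obtain ⟨c, hc, hcb⟩ := h2
  have := ι.injective hcb
  subst this
  exact absurd hab (not_lt.2 hc.le)

end Pool.Agent.Helper835.KS
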