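import Pool.Agent.Helper835.KS.Names
import Pool.Agent.Helper835.KS.Zfc

/-!
# For the one-point forcing the forcing formula is the plain statement
-/

set_option autoImplicit false

open Set
open Pool.Agent.Helper292.ForceCH

namespace Pool.Agent.Helper835.KS

universe v

theorem u_fnot {φ : Set Unit} : () ∈ fnot φ ↔ ¬ () ∈ φ :=
  ⟨fun h => h () le_rfl, fun h _ _ => h⟩

theorem u_fand {φ ψ : Set Unit} : () ∈ fand φ ψ ↔ (() ∈ φ ∧ () ∈ ψ) := Iff.rfl

theorem u_fall {ι : Sort v} {φ : ι → Set Unit} : () ∈ fall φ ↔ ∀ i, () ∈ φ i := Iff.rfl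

theorem u_fimp {φ ψ : Set Unit} : () ∈ fimp φ ψ ↔ (() ∈ φ → () ∈ ψ) := by
  simp only [fimp, u_fnot, u_fand, not_and, not_not]

theorem u_fiff {φ ψ : Set Unit} : () ∈ fiff φ ψ ↔ (() ∈ φ ↔ () ∈ ψ) := by
  simp only [fiff, u_fimp, u_fand]
  exact iff_iff_implies_and_implies.symm

theorem u_fex {ι : Sort v} {φ : ι → Set Unit} : () ∈ fex φ ↔ ∃ i, () ∈ φ i := by
  simp only [fex, u_fnot, u_fall, not_forall, not_not]

theorem u_fground {h : Prop} : () ∈ (fground h : Set Unit) ↔ h := Iff.rfl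

theorem u_meets {N : Set Unit} : () ∈ meets N ↔ () ∈ N := by
  constructor
  · intro h
    obtain ⟨r, _, s, hs, _⟩ := h () le_rfl
    exact hs
  · intro h q _
    exact ⟨q, le_rfl, (), h, le_rfl⟩

theorem u_isFun {z : ℕ → ℕ → Set Unit} :
    () ∈ IsFun z ↔ (∀ n, ∃ m, () ∈ z n m) ∧ ∀ n m m', () ∈ z n m ∧ () ∈ z n m' → m = m' := by
  simp only [IsFun, u_fand, u_fall, u_fex, u_fimp, u_fground, u_meets]

theorem u_inProj {t : Finset ℕ × List ℕ → Set Unit} {x : ℕ → Set Unit} :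
    () ∈ InProj t x ↔ {n | () ∈ x n} ∈ proj {q | () ∈ t q} := by
  simp only [InProj, u_fex, u_fand, u_fall, u_isFun, IsTrace, IsPrefix, u_fground, u_fimp, u_fiff,
    u_meets, proj, mem_ofPred_eq]
  constructor
  · rintro ⟨z, ⟨hz1, hz2⟩, hz⟩
    choose z' hz' using hz1
    refine ⟨z', fun n => ?_⟩
    obtain ⟨s, w, ⟨h1, h2⟩, ⟨h3, h4⟩, h5⟩ := hz n
    refine ⟨s, ⟨h1, h2⟩, ?_⟩
    have h6 : w = (List.range n).map z' := by
      apply List.ext_getElem
      · simp [h3]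
      · intro i hi hi'
        have h7 := h4 i w[i] (List.getElem?_eq_getElem hi)
        simp only [List.getElem_map, List.getElem_range]
        exact hz2 i _ _ ⟨h7, hz' i⟩
    rw [← h6]
    exact h5
  · rintro ⟨z, hz⟩
    refine ⟨fun i m => {_p | z i = m}, ⟨fun n => ⟨z n, rfl⟩, ?_⟩, fun n => ?_⟩
    · rintro n m m' ⟨h1, h2⟩
      exact h1.symm.trans h2
    · obtain ⟨s, ⟨h1, h2⟩, h3⟩ := hz n
      refine ⟨s, _, ⟨h1, h2⟩, ⟨by simp, ?_⟩, h3⟩
      intro i c hc
      rw [List.getElem?_map] at hc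
      rcases lt_or_ge i n with hi | hi
      · rw [List.getElem?_range hi] at hc
        simpa using hc
      · rw [List.getElem?_eq_none (by simpa using hi)] at hc
        simp at hc

theorem trivial_forcing (K : Type) [LinearOrder K] :
    (∀ p : Unit, p ∈ SymmetryHolds Unit K) ↔ Symmetry K := by
  have h0 : (∀ p : Unit, p ∈ SymmetryHolds Unit K) ↔ () ∈ SymmetryHolds Unit K :=
    ⟨fun h => h (), fun h p => h⟩
  rw [h0]
  simp only [SymmetryHolds, u_fand, u_fex, u_fall, u_fimp, u_fiff, u_fground, u_meets, u_inProj,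
    Symmetry]
  constructor
  · rintro ⟨⟨g, hg⟩, h⟩
    refine ⟨⟨fun a => {n | () ∈ g a n}, fun a b hab => hg a b fun n => ?_⟩, fun x t => ?_⟩
    · exact Set.ext_iff.1 hab n
    · exact h (fun a n => {_p | n ∈ x a}) (fun a q => {_p | q ∈ t a})
  · rintro ⟨⟨g, hg⟩, h⟩
    refine ⟨⟨fun a n => {_p | n ∈ g a}, fun a b hab => hg (Set.ext hab)⟩, fun x t => ?_⟩
    exact h (fun a => {n | () ∈ x a n}) (fun a => {q | () ∈ t a q})

end Pool.Agent.Helper835.KS
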